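import Pool.Agent.helper29.NS.FinD

/-!
# MP_b9b054_an: a single determining functional of the pressure, for every force, when the boundary
contains an arc of a circle

`Ω` is a bounded domain of the plane; its boundary contains an arc of the circle `|q| = R`, near
which `Ω` is the inside of the circle, and is `C²` at its points on that circle (disc, annulus, disc
with obstacles, and every domain with `C²` boundary one piece of which is a circular arc).  The
force is an arbitrary `C¹` field.  If there are finitely many stationary solutions, then there is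
one bounded continuous functional `F` on `L²(Ω)` such that for any two classical trajectories of the
Navier–Stokes system with uniformly bounded `C^{3,1}` norms, convergence of the difference of
`F` (pressure) to zero implies convergence of the difference of the velocities to zero in `L²(Ω)`.
-/

namespace Pool.Agent.Results.MP_b9b054_an.CircularArc

open MeasureTheory Filter Topology Set NS

theorem result (Ω : Set (ℝ × ℝ)) (hO : IsOpen Ω) (hC : IsConnected Ω)
    (hB : Bornology.IsBounded Ω) (R : ℝ) (hR : 0 < R) (harc : ∃ q ∈ Circ R, InArc Ω R q)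
    (hch : ∀ q ∈ frontier Ω ∩ Circ R, ∃ (θ δ : ℝ) (f : ℝ → ℝ), Chart Ω q θ δ f)
    (ν : ℝ) (hν : 0 < ν) (g h : ℝ × ℝ → ℝ) (hg : ContDiff ℝ 1 g) (hh : ContDiff ℝ 1 h)
    (hfin : (Stat Ω ν g h).Finite) :
    ∃ F : BoundedContinuousFunction (Lp ℝ 2 (volume.restrict Ω)) ℝ,
      ∀ (B : ℝ) (a1 b1 p1 a2 b2 p2 : ℝ × ℝ × ℝ → ℝ),
        Reg B a1 b1 p1 → Reg B a2 b2 p2 →
        Sol Ω ν g h (Ioi 0) a1 b1 p1 → Sol Ω ν g h (Ioi 0) a2 b2 p2 →
        ∀ P1 P2 : ℝ → Lp ℝ 2 (volume.restrict Ω),
        (∀ t > 0, P1 t =ᵐ[volume.restrict Ω] fun q => p1 (t, q)) →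
        (∀ t > 0, P2 t =ᵐ[volume.restrict Ω] fun q => p2 (t, q)) →
        Tendsto (fun t => F (P1 t) - F (P2 t)) atTop (𝓝 0) →
        Tendsto (fun t => ∫ q in Ω, ((a1 (t, q) - a2 (t, q)) ^ 2 + (b1 (t, q) - b2 (t, q)) ^ 2))
          atTop (𝓝 0) :=
  QD FinD_GD Fin_BK (SC Fin_AA A2 LM (P1 CM) P2) (FS SL CR ST P3) (QA ST LM (P1 CM) P3)
    Ω R ν g h hO hC hB hR harc hch hν hg hh hfin

end Pool.Agent.Results.MP_b9b054_an.CircularArc
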