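import Pool.Agent.helper29.NS.FinE

/-!
# MP_b9b054_an: a single determining functional of the pressure, for all forces outside a thin
explicit set

`Ω` is a bounded domain of the plane, `c` a boundary point near which the boundary is `C⁸`; its
curvature at `c` is positive (strict convexity) and its derivative along the boundary is not zero
there: in the frame with origin `c` and first axis tangent, `Ω` is `{r > f s}` with `f' 0 = 0`,
`f'' 0 > 0`, `f''' 0 ≠ 0`.  The force `(g, h)` is of class `C¹`, and it is *not* the case that its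
curl, divided by the sixth power of the distance to `c`, has along the inner normal at `c` a limit
whose sign is opposite to the sign of `f''' 0`.  Moreover either the boundary of `Ω` is connected
and of class `C²` (every simply connected domain), or the curl of the force does not vanish
identically near `c`.  If there are finitely many stationary solutions, then there is one bounded
continuous functional `F` on `L²(Ω)` such that for any two classical trajectories of the
Navier–Stokes system with uniformly bounded `C^{8,1}` norms (pressure: `C^{7,1}`), convergence of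
the difference of `F` (pressure) to zero implies convergence of the difference of the velocities to
zero in `L²(Ω)`.
-/

namespace Pool.Agent.Results.MP_b9b054_an.OrderSix

open MeasureTheory Filter Topology Set NS

theorem result (Ω : Set (ℝ × ℝ)) (hO : IsOpen Ω) (hC : IsConnected Ω)
    (hB : Bornology.IsBounded Ω) (ν : ℝ) (hν : 0 < ν) (g h : ℝ × ℝ → ℝ) (hg : ContDiff ℝ 1 g)
    (hh : ContDiff ℝ 1 h) (c : ℝ × ℝ) (θ δ : ℝ) (f : ℝ → ℝ) (hch : Chart Ω c θ δ f)
    (hf8 : ContDiff ℝ 8 f) (hf1 : deriv f 0 = 0) (hf2 : 0 < deriv (deriv f) 0)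
    (hf3 : deriv (deriv (deriv f)) 0 ≠ 0)
    (hl : ¬ ∃ l : ℝ, l * deriv (deriv (deriv f)) 0 < 0 ∧
      Tendsto (fun r : ℝ => curl g h (pt θ c 0 r) / r ^ 6) (𝓝[>] 0) (𝓝 l))
    (hcase : (IsPreconnected (frontier Ω) ∧
        ∀ q ∈ frontier Ω, ∃ (θ δ : ℝ) (f : ℝ → ℝ), Chart Ω q θ δ f) ∨
      ∀ ε > 0, ∃ q ∈ Ω ∩ Dsc c ε, curl g h q ≠ 0)
    (hfin : (Stat Ω ν g h).Finite) :
    ∃ F : BoundedContinuousFunction (Lp ℝ 2 (volume.restrict Ω)) ℝ,
      ∀ (B : ℝ) (a1 b1 p1 a2 b2 p2 : ℝ × ℝ × ℝ → ℝ),
        RegN 5 B a1 b1 p1 → RegN 5 B a2 b2 p2 →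
        Sol Ω ν g h (Ioi 0) a1 b1 p1 → Sol Ω ν g h (Ioi 0) a2 b2 p2 →
        ∀ P1 P2 : ℝ → Lp ℝ 2 (volume.restrict Ω),
        (∀ t > 0, P1 t =ᵐ[volume.restrict Ω] fun q => p1 (t, q)) →
        (∀ t > 0, P2 t =ᵐ[volume.restrict Ω] fun q => p2 (t, q)) →
        Tendsto (fun t => F (P1 t) - F (P2 t)) atTop (𝓝 0) →
        Tendsto (fun t => ∫ q in Ω, ((a1 (t, q) - a2 (t, q)) ^ 2 + (b1 (t, q) - b2 (t, q)) ^ 2))
          atTop (𝓝 0) :=
  QE FinE_GE Fin_BK FinE_SCN FinE_FSN FinE_QAN Ω ν g h c θ δ f hO hC hB hν hg hh hch hf8 hf1 hf2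
    hf3 hl hcase hfin

end Pool.Agent.Results.MP_b9b054_an.OrderSix
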