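import Pool.Agent.helper29.NS.Fin

/-!
# MP_b9b054_an: a single determining functional of the pressure, for generic forces

`Ω` is a bounded domain of the plane whose boundary is `C²` near a strictly convex boundary point
`c`, and the force `(g, h)` is of class `C²` with `curl (g, h) ≠ 0` or `∇ curl (g, h) ≠ 0` at `c`.
If there are finitely many stationary solutions, then there is one bounded continuous functional
`F` on `L²(Ω)` such that for any two classical trajectories of the Navier–Stokes system with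
uniformly bounded `C^{3,1}` norms, convergence of the difference of `F` (pressure) to zero implies
convergence of the difference of the velocities to zero in `L²(Ω)`.
-/

namespace Pool.Agent.Results.MP_b9b054_an.PressureFunctional

open MeasureTheory Filter Topology Set NS

theorem result (Ω : Set (ℝ × ℝ)) (hO : IsOpen Ω) (hC : IsConnected Ω)
    (hB : Bornology.IsBounded Ω) (c : ℝ × ℝ) (hc : ConvexAt Ω c) (ν : ℝ) (hν : 0 < ν)
    (g h : ℝ × ℝ → ℝ) (hg : ContDiff ℝ 2 g) (hh : ContDiff ℝ 2 h)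
    (hne : curl g h c ≠ 0 ∨ fderiv ℝ (curl g h) c ≠ 0) (hfin : (Stat Ω ν g h).Finite) :
    ∃ F : BoundedContinuousFunction (Lp ℝ 2 (volume.restrict Ω)) ℝ,
      ∀ (B : ℝ) (a1 b1 p1 a2 b2 p2 : ℝ × ℝ × ℝ → ℝ),
        Reg B a1 b1 p1 → Reg B a2 b2 p2 →
        Sol Ω ν g h (Ioi 0) a1 b1 p1 → Sol Ω ν g h (Ioi 0) a2 b2 p2 →
        ∀ P1 P2 : ℝ → Lp ℝ 2 (volume.restrict Ω),
        (∀ t > 0, P1 t =ᵐ[volume.restrict Ω] fun q => p1 (t, q)) →
        (∀ t > 0, P2 t =ᵐ[volume.restrict Ω] fun q => p2 (t, q)) →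
        Tendsto (fun t => F (P1 t) - F (P2 t)) atTop (𝓝 0) →
        Tendsto (fun t => ∫ q in Ω, ((a1 (t, q) - a2 (t, q)) ^ 2 + (b1 (t, q) - b2 (t, q)) ^ 2))
          atTop (𝓝 0) :=
  Fin_QQ Ω ν g h c hO hC hB hν hg hh hc hne hfin

end Pool.Agent.Results.MP_b9b054_an.PressureFunctional
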